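import Pool.Agent.W745.Fib.Stm

/-!
# FM-UP: upper bound of the dimension
-/

set_option autoImplicit false

open Polynomial Set MeasureTheory Filter Topology
open scoped ENNReal NNReal

namespace Pool.Agent.W973.FM.Up

open Pool.Agent.W745.Fib
open Pool.Agent.W811.Stu

theorem fin_level (lam : ℝ) (n : ℕ) (hn : 1 ≤ n) : {E : ℝ | tr lam n E = 1}.Finite := by
  have h0 : P lam n - 1 ≠ 0 := by
    intro h
    have h1 : P lam n = 1 := sub_eq_zero.1 h
    have h2 := natDegree_P lam n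
    rw [h1, natDegree_one] at h2
    have h3 : 0 < Nat.fib n := Nat.fib_pos.2 hn
    omega
  refine (P lam n - 1).roots.toFinset.finite_toSet.subset ?_
  intro E hE
  rw [Finset.mem_coe, Multiset.mem_toFinset, mem_roots h0, IsRoot.def, eval_sub, eval_one,
    sub_eq_zero]
  exact hE

/-- the cover of `{|tr n| ≤ 1}` -/
theorem cover (lam C0 : ℝ) (n : ℕ)
    (h1 : ∀ E E' : ℝ, (∀ e ∈ Set.uIcc E E', |tr lam n e| ≤ 1) →
      |E - E'| * |dE lam n E| ≤ C0)
    (h2 : ∀ E : ℝ, |tr lam n E| ≤ 1 → ∃ u v : ℝ, u ≤ E ∧ E ≤ v ∧ u < v ∧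
      (∀ e ∈ Set.Icc u v, |tr lam n e| ≤ 1) ∧
      ((tr lam n u = -1 ∧ tr lam n v = 1) ∨ (tr lam n u = 1 ∧ tr lam n v = -1)))
    (h3 : ∀ E : ℝ, |tr lam n E| ≤ 1 → 0 < |dE lam n E|) (E : ℝ) (hE : |tr lam n E| ≤ 1) :
    ∃ g : {E : ℝ // tr lam n E = 1}, E ∈ Set.Icc ((g : ℝ) - C0 / |dE lam n g|)
      ((g : ℝ) + C0 / |dE lam n g|) := by
  obtain ⟨u, v, hu, hv, huv, hb, hc⟩ := h2 E hE
  have key : ∀ g : ℝ, g ∈ Set.Icc u v → tr lam n g = 1 →
      ∃ g : {E : ℝ // tr lam n E = 1}, E ∈ Set.Icc ((g : ℝ) - C0 / |dE lam n g|)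
        ((g : ℝ) + C0 / |dE lam n g|) := by
    intro g hg hg1
    have h4 : |g - E| * |dE lam n g| ≤ C0 := by
      refine h1 g E fun e he => hb e ?_
      exact Set.uIcc_subset_Icc hg ⟨hu, hv⟩ he
    have h5 : 0 < |dE lam n g| := h3 g (by rw [hg1, abs_one])
    have h6 : |g - E| ≤ C0 / |dE lam n g| := by
      rw [le_div_iff₀ h5]
      exact h4
    refine ⟨⟨g, hg1⟩, ?_⟩
    have h7 := abs_le.1 h6
    constructor
    · simp only
      linarith [h7.2]
    · simp only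
      linarith [h7.1]
  rcases hc with ⟨_, hc⟩ | ⟨hc, _⟩
  · exact key v ⟨huv.le, le_rfl⟩ hc
  · exact key u ⟨le_rfl, huv.le⟩ hc

theorem up (hDi : SDi) (hGr : SGr) : SUp := by
  intro lam hlam s C hQ
  have hl0 : lam ≠ 0 := hlam.ne'
  have hcc : (1 : ℝ) < cc (lam / 2) := one_lt_cc (by positivity)
  obtain ⟨C0, hC0, hD⟩ := hDi lam hl0 1 one_pos hcc
  obtain ⟨c, hc, hG⟩ := hGr lam hl0
  have hpos : ∀ n : ℕ, 3 ≤ n → ∀ E : ℝ, |tr lam n E| ≤ 1 → 0 < |dE lam n E| := by
    intro n hn E hE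
    have h1 := hG n hn E hE
    have h2 : (0 : ℝ) < n := by exact_mod_cast (by omega : 0 < n)
    exact lt_of_lt_of_le (mul_pos hc h2) h1
  have hcov : ∀ n : ℕ, 3 ≤ n → ∀ E : ℝ, |tr lam n E| ≤ 1 →
      ∃ g : {E : ℝ // tr lam n E = 1}, E ∈ Set.Icc ((g : ℝ) - C0 / |dE lam n g|)
        ((g : ℝ) + C0 / |dE lam n g|) := by
    intro n hn E hE
    have h1 := hD n (by omega)
    exact cover lam C0 n (fun E E' h => (h1.1 E E' h).2.1) (fun E hE => h1.2 E hE)
      (hpos n hn) E hE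
  -- the intervals
  let ι : ℕ → Type := fun n => {E : ℝ // tr lam (n + 3) E = 1} ⊕ {E : ℝ // tr lam (n + 4) E = 1}
  let t : ∀ n : ℕ, ι n → Set ℝ := fun n i => match i with
    | Sum.inl g => Set.Icc ((g : ℝ) - C0 / |dE lam (n + 3) g|) ((g : ℝ) + C0 / |dE lam (n + 3) g|)
    | Sum.inr g => Set.Icc ((g : ℝ) - C0 / |dE lam (n + 4) g|) ((g : ℝ) + C0 / |dE lam (n + 4) g|)
  have hcnt : ∀ n, Countable (ι n) := by
    intro n
    have h1 : Countable {E : ℝ // tr lam (n + 3) E = 1} :=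
      (fin_level lam (n + 3) (by omega)).countable
    have h2 : Countable {E : ℝ // tr lam (n + 4) E = 1} :=
      (fin_level lam (n + 4) (by omega)).countable
    infer_instance
  have hdiam : ∀ (n : ℕ) (g : ℝ), Metric.ediam (Set.Icc (g - C0 / |dE lam n g|)
      (g + C0 / |dE lam n g|)) = ENNReal.ofReal (2 * C0 / |dE lam n g|) := by
    intro n g
    rw [Real.ediam_Icc]
    congr 1
    ring
  have hsmall : ∀ (n : ℕ), 3 ≤ n → ∀ g : ℝ, tr lam n g = 1 →
      2 * C0 / |dE lam n g| ≤ 2 * C0 / (c * n) := by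
    intro n hn g hg
    have h2 : (0 : ℝ) < n := by exact_mod_cast (by omega : 0 < n)
    refine div_le_div_of_nonneg_left (by linarith) (mul_pos hc h2) ?_
    exact hG n hn g (by rw [hg, abs_one])
  have hH : μH[(s : ℝ)] (Sp lam one) ≤
      liminf (fun n => ∑' i, Metric.ediam (t n i) ^ (s : ℝ)) atTop := by
    refine Measure.hausdorffMeasure_le_liminf_tsum (s : ℝ) (Sp lam one)
      (fun n : ℕ => ENNReal.ofReal (2 * C0 / (c * (n + 3)))) ?_ t ?_ ?_
    · have h1 : Tendsto (fun n : ℕ => 2 * C0 / (c * ((n : ℝ) + 3))) atTop (𝓝 0) := by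
        refine Tendsto.div_atTop tendsto_const_nhds ?_
        refine Tendsto.const_mul_atTop hc ?_
        exact tendsto_atTop_add_const_right _ _ tendsto_natCast_atTop_atTop
      have h2 := ENNReal.tendsto_ofReal h1
      rwa [ENNReal.ofReal_zero] at h2
    · refine Eventually.of_forall fun n i => ?_
      rcases i with g | g
      · show Metric.ediam (Set.Icc ((g : ℝ) - C0 / |dE lam (n + 3) g|)
          ((g : ℝ) + C0 / |dE lam (n + 3) g|)) ≤ _
        rw [hdiam]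
        refine ENNReal.ofReal_le_ofReal ((hsmall (n + 3) (by omega) g g.2).trans ?_)
        push_cast
        exact le_rfl
      · show Metric.ediam (Set.Icc ((g : ℝ) - C0 / |dE lam (n + 4) g|)
          ((g : ℝ) + C0 / |dE lam (n + 4) g|)) ≤ _
        rw [hdiam]
        refine ENNReal.ofReal_le_ofReal ((hsmall (n + 4) (by omega) g g.2).trans ?_)
        have h3 : (0 : ℝ) ≤ n := Nat.cast_nonneg n
        refine div_le_div_of_nonneg_left (by linarith) (by positivity) ?_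
        push_cast
        exact mul_le_mul_of_nonneg_left (by linarith) hc.le
    · refine Eventually.of_forall fun n E hE => ?_
      have h1 := hE (n + 2)
      rw [orb_y, orb_y] at h1
      rw [Set.mem_iUnion]
      rcases h1 with h1 | h1
      · obtain ⟨g, hg⟩ := hcov (n + 3) (by omega) E h1
        exact ⟨Sum.inl g, hg⟩
      · obtain ⟨g, hg⟩ := hcov (n + 4) (by omega) E h1
        exact ⟨Sum.inr g, hg⟩
  have hterm : ∀ n : ℕ, 3 ≤ n → ∀ g : ℝ, tr lam n g = 1 →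
      ENNReal.ofReal (2 * C0 / |dE lam n g|) ^ (s : ℝ) =
        ENNReal.ofReal ((2 * C0) ^ (s : ℝ)) * ENNReal.ofReal (|dE lam n g| ^ (-(s : ℝ))) := by
    intro n hn g hg
    have h1 := hpos n hn g (by rw [hg, abs_one])
    rw [ENNReal.ofReal_rpow_of_pos (by positivity), ← ENNReal.ofReal_mul (by positivity)]
    congr 1
    rw [Real.div_rpow (by linarith) h1.le, Real.rpow_neg h1.le]
    rfl
  have hbound : ∀ n : ℕ, ∑' i, Metric.ediam (t n i) ^ (s : ℝ) ≤
      ENNReal.ofReal ((2 * C0) ^ (s : ℝ)) * (C + C) := by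
    intro n
    have h1 : ∑' i, Metric.ediam (t n i) ^ (s : ℝ) =
        ∑' g : {E : ℝ // tr lam (n + 3) E = 1}, Metric.ediam (t n (Sum.inl g)) ^ (s : ℝ) +
        ∑' g : {E : ℝ // tr lam (n + 4) E = 1}, Metric.ediam (t n (Sum.inr g)) ^ (s : ℝ) :=
      (HasSum.sum (f := fun i => Metric.ediam (t n i) ^ (s : ℝ)) ENNReal.summable.hasSum
        ENNReal.summable.hasSum).tsum_eq
    rw [h1, mul_add]
    refine add_le_add ?_ ?_
    · refine le_trans (le_of_eq ?_) (mul_le_mul_right (hQ (n + 3) (by omega)) _)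
      rw [Q, ← ENNReal.tsum_mul_left]
      refine tsum_congr fun g => ?_
      show Metric.ediam (Set.Icc ((g : ℝ) - C0 / |dE lam (n + 3) g|)
          ((g : ℝ) + C0 / |dE lam (n + 3) g|)) ^ (s : ℝ) = _
      rw [hdiam, hterm (n + 3) (by omega) g g.2]
    · refine le_trans (le_of_eq ?_) (mul_le_mul_right (hQ (n + 4) (by omega)) _)
      rw [Q, ← ENNReal.tsum_mul_left]
      refine tsum_congr fun g => ?_
      show Metric.ediam (Set.Icc ((g : ℝ) - C0 / |dE lam (n + 4) g|)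
          ((g : ℝ) + C0 / |dE lam (n + 4) g|)) ^ (s : ℝ) = _
      rw [hdiam, hterm (n + 4) (by omega) g g.2]
  refine dimH_le_of_hausdorffMeasure_ne_top ?_
  refine ne_top_of_le_ne_top (b := ENNReal.ofReal ((2 * C0) ^ (s : ℝ)) * (C + C)) ?_ (hH.trans ?_)
  · exact ENNReal.mul_ne_top ENNReal.ofReal_ne_top (by simp)
  · refine le_trans (liminf_le_liminf (v := fun _ => ENNReal.ofReal ((2 * C0) ^ (s : ℝ)) * (C + C))
      (Eventually.of_forall hbound)) ?_
    simp

end Pool.Agent.W973.FM.Up
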